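import Mathlib
import Pool.Agent.W757.BL.Defs

/-!
# Project BL: a table from its boundary curve
-/

set_option autoImplicit false

namespace Pool.Agent.W714.BL

open Set Filter Topology
open scoped ComplexConjugate
open Pool.Agent.W757.BL Pool.Agent.H719R3.BG

/-- the tangent linear form at `pt s` -/
noncomputable def lf (x y x' y' : ℝ → ℝ) (s : ℝ) (z : ℂ) : ℝ :=
  x' s * (z.im - y s) - y' s * (z.re - x s)

theorem lf_cont (x y x' y' : ℝ → ℝ) (s : ℝ) : Continuous (lf x y x' y' s) := by
  unfold lf
  exact (continuous_const.mul (Complex.continuous_im.sub continuous_const)).sub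
    (continuous_const.mul (Complex.continuous_re.sub continuous_const))

theorem lf_self (x y x' y' : ℝ → ℝ) (s : ℝ) : lf x y x' y' s (pt x y s) = 0 := by
  simp [lf, pt]

theorem tan_ne {x y x' y' : ℝ → ℝ} {L : ℝ} (h : Cv x y x' y' L) (s : ℝ) :
    ¬ (x' s = 0 ∧ y' s = 0) := by
  rintro ⟨h1, h2⟩
  have := h.conv s (s + L / 2) (by linarith [h.L0]) (by linarith [h.L0])
  rw [h1, h2] at this
  simp at this

theorem lf_front {x y x' y' : ℝ → ℝ} {L : ℝ} (h : Cv x y x' y' L) (s r : ℝ)
    (hne : pt x y r ≠ pt x y s) : 0 < lf x y x' y' s (pt x y r) := by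
  have hx : ∀ a : ℝ, ∀ n : ℤ, x (a + n * L) = x a := by
    intro a n
    have : Function.Periodic x L := h.px
    have := this.int_mul n a
    simpa using this
  have hy : ∀ a : ℝ, ∀ n : ℤ, y (a + n * L) = y a := by
    intro a n
    have : Function.Periodic y L := h.py
    have := this.int_mul n a
    simpa using this
  obtain ⟨n, hn⟩ : ∃ n : ℤ, s ≤ r + n * L ∧ r + n * L < s + L := by
    refine ⟨-⌊(r - s) / L⌋, ?_, ?_⟩
    · have h1 := Int.floor_le ((r - s) / L)
      rw [le_div_iff₀ h.L0] at h1
      push_cast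
      linarith
    · have h1 := Int.lt_floor_add_one ((r - s) / L)
      rw [div_lt_iff₀ h.L0] at h1
      push_cast
      nlinarith
  have hpt : pt x y (r + n * L) = pt x y r := by
    simp [pt, hx, hy]
  have hs : s < r + n * L := by
    rcases hn.1.lt_or_eq with h1 | h1
    · exact h1
    · exfalso
      apply hne
      rw [← hpt, ← h1]
  rw [← hpt]
  exact h.conv s _ hs hn.2

theorem lf_pos {x y x' y' : ℝ → ℝ} {L : ℝ} {Ω : Set ℂ} (h : Cv x y x' y' L) (hΩ : IsOpen Ω)
    (hb : Bornology.IsBounded Ω) (hr : range (pt x y) = frontier Ω) (s : ℝ) (z : ℂ)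
    (hz : z ∈ closure Ω) (hne : z ≠ pt x y s) : 0 < lf x y x' y' s z := by
  have hfr : ∀ w ∈ frontier Ω, w ≠ pt x y s → 0 < lf x y x' y' s w := by
    intro w hw hws
    rw [← hr] at hw
    obtain ⟨r, rfl⟩ := hw
    exact lf_front h s r hws
  -- no interior minimum
  have hno : ∀ w ∈ Ω, ¬ IsMinOn (lf x y x' y' s) (closure Ω) w := by
    intro w hw hmin
    have hcurve : Continuous fun ε : ℝ => w + ε * (⟨y' s, -x' s⟩ : ℂ) := by fun_prop
    have hev : ∀ᶠ ε : ℝ in 𝓝 0, w + ε * (⟨y' s, -x' s⟩ : ℂ) ∈ Ω := by
      apply hcurve.continuousAt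
      apply hΩ.mem_nhds
      simpa using hw
    obtain ⟨δ, hδ, hδ'⟩ := Metric.eventually_nhds_iff.1 hev
    have hmem := hδ' (y := δ / 2) (by
      rw [Real.dist_eq, sub_zero, abs_of_pos (by positivity)]; linarith)
    have h1 := hmin (subset_closure hmem)
    simp only [mem_setOf_eq, lf] at h1
    have e1 : (w + ((δ / 2 : ℝ) : ℂ) * (⟨y' s, -x' s⟩ : ℂ)).im = w.im - δ / 2 * x' s := by
      simp [Complex.add_im, Complex.mul_im]
      ring
    have e2 : (w + ((δ / 2 : ℝ) : ℂ) * (⟨y' s, -x' s⟩ : ℂ)).re = w.re + δ / 2 * y' s := by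
      simp [Complex.add_re, Complex.mul_re]
    rw [e1, e2] at h1
    have h2 : δ / 2 * (x' s ^ 2 + y' s ^ 2) ≤ 0 := by nlinarith
    have h3 : 0 < x' s ^ 2 + y' s ^ 2 := by
      rcases not_and_or.1 (tan_ne h s) with h4 | h4
      · have := sq_nonneg (y' s); have := pow_pos (abs_pos.2 h4) 2
        rw [sq_abs] at this; linarith
      · have := sq_nonneg (x' s); have := pow_pos (abs_pos.2 h4) 2
        rw [sq_abs] at this; linarith
    have : 0 < δ / 2 * (x' s ^ 2 + y' s ^ 2) := by positivity
    linarith
  have hcomp : IsCompact (closure Ω) := hb.isCompact_closure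
  obtain ⟨w, hw, hwm⟩ := hcomp.exists_isMinOn ⟨z, hz⟩ (lf_cont x y x' y' s).continuousOn
  have hnn : ∀ v ∈ closure Ω, 0 ≤ lf x y x' y' s v := by
    intro v hv
    have h1 : lf x y x' y' s w ≤ lf x y x' y' s v := hwm hv
    have h2 : 0 ≤ lf x y x' y' s w := by
      by_cases hwΩ : w ∈ Ω
      · exact absurd hwm (hno w hwΩ)
      · have hwf : w ∈ frontier Ω := by
          rw [frontier, hΩ.interior_eq]
          exact ⟨hw, hwΩ⟩
        by_cases hws : w = pt x y s
        · rw [hws, lf_self]
        · exact (hfr w hwf hws).le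
    linarith
  by_cases hzΩ : z ∈ Ω
  · rcases (hnn z hz).lt_or_eq with h1 | h1
    · exact h1
    · exfalso
      refine hno z hzΩ ?_
      intro v hv
      simp only [mem_setOf_eq]
      rw [← h1]
      exact hnn v hv
  · have hzf : z ∈ frontier Ω := by
      rw [frontier, hΩ.interior_eq]
      exact ⟨hz, hzΩ⟩
    exact hfr z hzf hne

theorem t_TAB : S_TAB := by
  intro x y x' y' L Ω h _ hΩ hc hb hne hr
  have hpos := fun s z hz hne => lf_pos h hΩ hb hr s z hz hne
  refine ⟨hΩ, hc, hb, hne, ?_, ?_⟩
  · -- strict convexity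
    intro z hz w hw hzw a b ha hb' hab
    by_contra hcon
    have hp : a • z + b • w ∈ closure Ω := hc.closure hz hw ha.le hb'.le hab
    have hpn : a • z + b • w ∉ Ω := fun h1 => hcon (interior_maximal subset_closure hΩ h1)
    have hpf : a • z + b • w ∈ frontier Ω := by
      rw [frontier, hΩ.interior_eq]
      exact ⟨hp, hpn⟩
    rw [← hr] at hpf
    obtain ⟨s, hs⟩ := hpf
    have hz1 : z ≠ pt x y s := by
      intro h1
      rw [hs] at h1
      have h2 : b • (w - z) = 0 := by
        have : b • (w - z) = (a • z + b • w) - (a + b) • z := by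
          module
        rw [this, ← h1, hab, one_smul, sub_self]
      rcases smul_eq_zero.1 h2 with h3 | h3
      · exact hb'.ne' h3
      · exact hzw (sub_eq_zero.1 h3).symm
    have hw1 : w ≠ pt x y s := by
      intro h1
      rw [hs] at h1
      have h2 : a • (z - w) = 0 := by
        have : a • (z - w) = (a • z + b • w) - (a + b) • w := by
          module
        rw [this, ← h1, hab, one_smul, sub_self]
      rcases smul_eq_zero.1 h2 with h3 | h3
      · exact ha.ne' h3
      · exact hzw (sub_eq_zero.1 h3)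
    have h1 := hpos s z hz hz1
    have h2 := hpos s w hw hw1
    have h3 : lf x y x' y' s (a • z + b • w) = a * lf x y x' y' s z + b * lf x y x' y' s w := by
      simp only [lf, Complex.add_im, Complex.add_re, Complex.real_smul, Complex.mul_im,
        Complex.mul_re, Complex.ofReal_re, Complex.ofReal_im]
      have : b = 1 - a := by linarith
      subst this
      ring
    rw [← hs, lf_self] at h3
    have h4 := mul_pos ha h1
    have h5 := mul_pos hb' h2
    linarith
  · -- uniqueness of tangents
    have key : ∀ t : ℝ, ∀ u : ℂ, Tangent Ω (pt x y t) u → cr u (⟨x' t, y' t⟩ : ℂ) = 0 := by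
      intro t u hu
      have hcont : ∀ p : ℂ, Continuous fun y : ℂ => cr u (y - p) := by
        intro p
        unfold cr
        fun_prop
      have hsign : (∀ v ∈ Ω, 0 < cr u (v - pt x y t)) ∨ (∀ v ∈ Ω, cr u (v - pt x y t) < 0) := by
        by_contra hcon
        push Not at hcon
        obtain ⟨⟨v, hv, hv'⟩, ⟨v', hv1, hv1'⟩⟩ := hcon
        obtain ⟨w, hw, hw'⟩ := hc.isPreconnected.intermediate_value hv hv1
          ((hcont (pt x y t)).continuousOn) ⟨hv', hv1'⟩
        exact hu.2 w hw hw'
      have hder : HasDerivAt (fun s : ℝ => cr u (pt x y s - pt x y t))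
          (cr u (⟨x' t, y' t⟩ : ℂ)) t := by
        have e1 : (fun s : ℝ => cr u (pt x y s - pt x y t)) =
            fun s : ℝ => u.re * (y s - y t) - u.im * (x s - x t) := by
          funext s
          simp [cr, pt]
          ring
        have e2 : cr u (⟨x' t, y' t⟩ : ℂ) = u.re * (y' t) - u.im * (x' t) := by
          simp [cr]
          ring
        rw [e1, e2]
        exact (((h.dy t).sub_const (y t)).const_mul u.re).sub
          (((h.dx t).sub_const (x t)).const_mul u.im)
      have hmem : ∀ s, pt x y s ∈ closure Ω := fun s => by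
        apply frontier_subset_closure
        rw [← hr]
        exact ⟨s, rfl⟩
      have h00 : cr u (pt x y t - pt x y t) = 0 := by simp [cr]
      rcases hsign with h' | h'
      · have hcl : ∀ v ∈ closure Ω, 0 ≤ cr u (v - pt x y t) := fun v hv =>
          closure_minimal (s := Ω) (t := {v | 0 ≤ cr u (v - pt x y t)})
            (fun v hv => (h' v hv).le) (isClosed_le continuous_const (hcont _)) hv
        have hmin : IsLocalMin (fun s : ℝ => cr u (pt x y s - pt x y t)) t :=
          Filter.Eventually.of_forall fun s => by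
            simp only [h00]
            exact hcl _ (hmem s)
        exact hmin.hasDerivAt_eq_zero hder
      · have hcl : ∀ v ∈ closure Ω, cr u (v - pt x y t) ≤ 0 := fun v hv =>
          closure_minimal (s := Ω) (t := {v | cr u (v - pt x y t) ≤ 0})
            (fun v hv => (h' v hv).le) (isClosed_le (hcont _) continuous_const) hv
        have hmax : IsLocalMax (fun s : ℝ => cr u (pt x y s - pt x y t)) t :=
          Filter.Eventually.of_forall fun s => by
            simp only [h00]
            exact hcl _ (hmem s)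
        exact hmax.hasDerivAt_eq_zero hder
    intro p hp u v hu hv
    rw [← hr] at hp
    obtain ⟨t, rfl⟩ := hp
    have h1 := key t u hu
    have h2 := key t v hv
    unfold cr at *
    simp only [Complex.mul_im, Complex.conj_re, Complex.conj_im] at *
    rcases (not_and_or.1 (tan_ne h t)) with h4 | h4
    · have : (x' t) * (u.re * v.im + -u.im * v.re) = 0 := by
        linear_combination (v.re) * h1 - u.re * h2
      exact (mul_eq_zero.1 this).resolve_left h4
    · have : (y' t) * (u.re * v.im + -u.im * v.re) = 0 := by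
        linear_combination (v.im) * h1 - u.im * h2
      exact (mul_eq_zero.1 this).resolve_left h4

end Pool.Agent.W714.BL
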