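import Mathlib
import Pool.Agent.W757.BL.Defs
import Pool.Agent.H719R3.BG.Law
import Pool.Agent.H719R3.BG.Seg
import Pool.Agent.W714.BL.Tab

/-!
# Project BL: the reflection law from the caustic property
-/

set_option autoImplicit false

namespace Pool.Agent.W714.BL

open Set Filter Topology
open scoped ComplexConjugate
open Pool.Agent.W757.BL Pool.Agent.H719R3.BG

/-- the tangent vector of the curve is a tangent direction of the table -/
theorem tangent_pt {x y x' y' : ℝ → ℝ} {L : ℝ} {Ω : Set ℂ} (h : Cv x y x' y' L) (hΩ : IsOpen Ω)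
    (hb : Bornology.IsBounded Ω) (hr : range (pt x y) = frontier Ω) (s : ℝ) :
    Tangent Ω (pt x y s) (⟨x' s, y' s⟩ : ℂ) := by
  refine ⟨?_, ?_⟩
  · intro h0
    apply tan_ne h s
    exact ⟨by simpa using congrArg Complex.re h0, by simpa using congrArg Complex.im h0⟩
  · intro z hz
    have hne : z ≠ pt x y s := by
      intro h1
      have h2 : pt x y s ∈ frontier Ω := hr ▸ mem_range_self s
      rw [← h1, hΩ.frontier_eq] at h2
      exact h2.2 hz
    have h1 := lf_pos h hΩ hb hr s z (subset_closure hz) hne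
    have h2 : cr (⟨x' s, y' s⟩ : ℂ) (z - pt x y s) = lf x y x' y' s z := by
      simp [cr, lf, pt]
      ring
    rw [h2]
    exact h1.ne'

theorem t_RLW : S_RLW := by
  intro x y x' y' L Ω K f h hcf hT hr hK hst s
  have hS := segFacts hT
  obtain ⟨a1, a2, a3, -⟩ := hst s
  obtain ⟨b1, b2, b3, -⟩ := hst (f s)
  have hu := tangent_pt h hT.isOpen hT.bounded hr (f s)
  have hlaw := law_of_caustic hT hS hK a3 b3 hu
  have hc1 := hcf.conv' s (f s) a1 a2
  have hc2 := h.conv (f s) (f (f s)) b1 b2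
  have hp1 := hcf.pos s (f s) a1 (by linarith)
  have hp2 := hcf.pos (f s) (f (f s)) b1 (by linarith)
  have hq1 : hh x y s (f s) ^ 2 = (x (f s) - x s) ^ 2 + (y (f s) - y s) ^ 2 := by
    unfold hh
    exact Real.sq_sqrt (by positivity)
  have hq2 : hh x y (f s) (f (f s)) ^ 2 =
      (x (f (f s)) - x (f s)) ^ 2 + (y (f (f s)) - y (f s)) ^ 2 := by
    unfold hh
    exact Real.sq_sqrt (by positivity)
  simp only [pt, sq, Complex.mul_im, Complex.mul_re, Complex.sub_re, Complex.sub_im,
    Complex.conj_re, Complex.conj_im] at hlaw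
  unfold h1 h2
  generalize hh x y s (f s) = n1 at *
  generalize hh x y (f s) (f (f s)) = n2 at *
  generalize x (f (f s)) = x2 at *
  generalize y (f (f s)) = y2 at *
  generalize x' (f s) = p at *
  generalize y' (f s) = q at *
  generalize x (f s) = x1 at *
  generalize y (f s) = y1 at *
  generalize x s = x0 at *
  generalize y s = y0 at *
  set B1 : ℝ := p * (y0 - y1) - q * (x0 - x1) with hB1
  set B2 : ℝ := p * (y2 - y1) - q * (x2 - x1) with hB2
  have hU : 0 < p ^ 2 + q ^ 2 := by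
    rcases eq_or_ne p 0 with hp | hp
    · rcases eq_or_ne q 0 with hq | hq
      · exfalso
        rw [hB1, hp, hq] at hc1
        simp at hc1
      · positivity
    · positivity
  have hal : ((x1 - x0) * p + (y1 - y0) * q) * B2 = B1 * ((x2 - x1) * p + (y2 - y1) * q) := by
    rw [hB1, hB2]
    linear_combination hlaw
  have hsq : (B1 * n2) ^ 2 = (B2 * n1) ^ 2 := by
    have e : (p ^ 2 + q ^ 2) * ((B1 * n2) ^ 2 - (B2 * n1) ^ 2) = 0 := by
      have e1 : (p ^ 2 + q ^ 2) * n1 ^ 2 = ((x1 - x0) * p + (y1 - y0) * q) ^ 2 + B1 ^ 2 := by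
        rw [hq1, hB1]; ring
      have e2 : (p ^ 2 + q ^ 2) * n2 ^ 2 = ((x2 - x1) * p + (y2 - y1) * q) ^ 2 + B2 ^ 2 := by
        rw [hq2, hB2]; ring
      have e3 : (((x1 - x0) * p + (y1 - y0) * q) * B2) ^ 2 =
        (B1 * ((x2 - x1) * p + (y2 - y1) * q)) ^ 2 := by rw [hal]
      linear_combination B1 ^ 2 * e2 - B2 ^ 2 * e1 - e3
    rcases mul_eq_zero.1 e with h3 | h3
    · exact absurd h3 hU.ne'
    · linarith
  have hlin : B1 * n2 = B2 * n1 := by
    have h5 : 0 ≤ B1 * n2 := by positivity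
    have h6 : 0 ≤ B2 * n1 := by positivity
    exact (pow_left_inj₀ h5 h6 (by norm_num)).1 hsq
  have hfin : ((x1 - x0) * p + (y1 - y0) * q) * n2 = ((x2 - x1) * p + (y2 - y1) * q) * n1 := by
    have e : B2 * (((x1 - x0) * p + (y1 - y0) * q) * n2 -
        ((x2 - x1) * p + (y2 - y1) * q) * n1) = 0 := by
      linear_combination n2 * hal + ((x2 - x1) * p + (y2 - y1) * q) * hlin
    rcases mul_eq_zero.1 e with h3 | h3
    · exact absurd h3 hc2.ne'
    · linarith
  rw [div_add_div _ _ hp1.ne' hp2.ne']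
  rw [div_eq_zero_iff]
  left
  linear_combination hfin

end Pool.Agent.W714.BL
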